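import Pool.Agent.H32.RK.TargetsA
import Pool.Agent.H32.RK.TargetsB

set_option autoImplicit false

open Finset NumberField Pool.Agent.H32.RQ Pool.Agent.H32.RK

namespace Pool.Agent.H51.RK

section aux

variable {K : Type} [Field K] [NumberField K]

/-- the combination with the powers of `t` -/
def UU {n : ℕ} (t : ℕ) (x : Fin (n + 1) → 𝓞 K) : 𝓞 K := ∑ i, x i * (t : 𝓞 K) ^ (i : ℕ)

theorem w_UU {n : ℕ} (t : ℕ) (x : Fin (n + 1) → 𝓞 K) (w : InfinitePlace K) :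
    w (UU t x : K) = ‖∑ i, w.embedding (x i : K) * (t : ℂ) ^ (i : ℕ)‖ := by
  rw [← w.norm_embedding_eq]
  congr 1
  simp [UU, map_sum, map_mul, map_pow]

theorem UU_bd {n : ℕ} (t T : ℕ) (ht : t ≤ T) (x : Fin (n + 1) → 𝓞 K) (w : InfinitePlace K) (X : ℝ)
    (h : ∀ i, w (x i : K) ≤ X) :
    w (UU t x : K) ≤ ((n : ℝ) + 1) * ((T : ℝ) + 1) ^ n * X := by
  rw [w_UU]
  refine (norm_sum_le _ _).trans ?_
  have h1 : ∀ i ∈ (univ : Finset (Fin (n + 1))),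
      ‖w.embedding (x i : K) * (t : ℂ) ^ (i : ℕ)‖ ≤ ((T : ℝ) + 1) ^ n * X := by
    intro i _
    rw [norm_mul, norm_pow, w.norm_embedding_eq, Complex.norm_natCast, mul_comm]
    have h2 : (t : ℝ) ^ (i : ℕ) ≤ ((T : ℝ) + 1) ^ n := by
      have h3 : (t : ℝ) ≤ (T : ℝ) + 1 := by
        have : (t : ℝ) ≤ T := by exact_mod_cast ht
        linarith
      calc (t : ℝ) ^ (i : ℕ) ≤ ((T : ℝ) + 1) ^ (i : ℕ) := pow_le_pow_left₀ (by positivity) h3 _
        _ ≤ ((T : ℝ) + 1) ^ n := pow_le_pow_right₀ (by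
            have : (0 : ℝ) ≤ T := by positivity
            linarith) (Nat.lt_succ_iff.mp i.2)
    exact mul_le_mul h2 (h i) (apply_nonneg _ _) (by positivity)
  refine (Finset.sum_le_sum h1).trans (le_of_eq ?_)
  rw [Finset.sum_const, Finset.card_univ, Fintype.card_fin, nsmul_eq_mul]
  push_cast
  ring

theorem UU_mnr {n : ℕ} (t : ℕ) (x z : Fin (n + 1) → 𝓞 K) (j : Fin (n + 1)) :
    UU t x * z j - UU t z * x j = UU t (fun i => mnr x z i j) := by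
  unfold UU mnr
  rw [Finset.sum_mul, Finset.sum_mul, ← Finset.sum_sub_distrib]
  refine Finset.sum_congr rfl (fun i _ => ?_)
  ring

theorem UU_succ {n : ℕ} (t : ℕ) (x : Fin (n + 1) → 𝓞 K) :
    UU t x = x 0 + ∑ j : Fin n, x j.succ * (t : 𝓞 K) ^ ((j : ℕ) + 1) := by
  unfold UU
  rw [Fin.sum_univ_succ]
  simp

theorem UU_sub {n : ℕ} (t : ℕ) (x z : Fin (n + 1) → 𝓞 K) (τ : 𝓞 K) :
    UU t (fun i => z i - τ * x i) = UU t z - τ * UU t x := by
  unfold UU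
  rw [Finset.mul_sum, ← Finset.sum_sub_distrib]
  refine Finset.sum_congr rfl (fun i _ => ?_)
  ring

theorem card_fib {α β : Type} [DecidableEq β] (S : Finset α) (f : α → β) (M : ℝ)
    (h : ∀ b ∈ S.image f, ((S.filter (fun a => f a = b)).card : ℝ) ≤ M) :
    (S.card : ℝ) ≤ (S.image f).card * M := by
  rw [Finset.card_eq_sum_card_image f S]
  push_cast
  calc _ ≤ ∑ b ∈ S.image f, M := Finset.sum_le_sum h
    _ = _ := by rw [Finset.sum_const, nsmul_eq_mul]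

open Classical in
theorem card_two {α β γ : Type} (S : Finset α) (f : α → β) (g : α → γ) (X Y M : ℝ)
    (hX : ((S.image f).card : ℝ) ≤ X) (hY : ((S.image g).card : ℝ) ≤ Y) (hX0 : 0 ≤ X)
    (hM : 0 ≤ M)
    (h : ∀ q ∈ S, ((S.filter (fun a => f a = f q ∧ g a = g q)).card : ℝ) ≤ M) :
    (S.card : ℝ) ≤ X * Y * M := by
  have h1 : ∀ b ∈ S.image (fun q => (f q, g q)),
      ((S.filter (fun a => (f a, g a) = b)).card : ℝ) ≤ M := by
    intro b hb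
    obtain ⟨q, hq, rfl⟩ := Finset.mem_image.mp hb
    refine le_trans (le_of_eq ?_) (h q hq)
    congr 2
    refine Finset.filter_congr (fun a _ => ?_)
    exact Prod.mk.injEq _ _ _ _ ▸ Iff.rfl
  have h2 := card_fib S (fun q => (f q, g q)) M h1
  have h3 : S.image (fun q => (f q, g q)) ⊆ (S.image f) ×ˢ (S.image g) := by
    intro a ha
    obtain ⟨q, hq, rfl⟩ := Finset.mem_image.mp ha
    exact Finset.mem_product.mpr ⟨Finset.mem_image_of_mem f hq, Finset.mem_image_of_mem g hq⟩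
  have h4 := Finset.card_le_card h3
  rw [Finset.card_product] at h4
  have h5 : ((S.image (fun q => (f q, g q))).card : ℝ) ≤
      ((S.image f).card : ℝ) * ((S.image g).card : ℝ) := by exact_mod_cast h4
  have h6 : ((S.image f).card : ℝ) * ((S.image g).card : ℝ) ≤ X * Y :=
    mul_le_mul hX hY (Nat.cast_nonneg _) hX0
  exact h2.trans (mul_le_mul_of_nonneg_right (h5.trans h6) hM)

open Classical in
theorem fib_card {n : ℕ} (t : ℕ) (x0 z0 : 𝓞 K)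
    (F : Finset ((Fin (n + 1) → 𝓞 K) × (Fin (n + 1) → 𝓞 K)))
    (h : ∀ q ∈ F, UU t q.1 = x0 ∧ UU t q.2 = z0) :
    F.card ≤ ∏ j : Fin n, (F.image (fun q => (q.1 j.succ, q.2 j.succ))).card := by
  rw [← Fintype.card_piFinset]
  refine Finset.card_le_card_of_injOn (fun q j => (q.1 j.succ, q.2 j.succ)) ?_ ?_
  · intro q hq
    simp only [Finset.mem_coe, Fintype.mem_piFinset]
    exact fun j => Finset.mem_image_of_mem (fun q => (q.1 j.succ, q.2 j.succ)) hq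
  · intro q hq q' hq' he
    have h1 : ∀ j : Fin n, q.1 j.succ = q'.1 j.succ ∧ q.2 j.succ = q'.2 j.succ := by
      intro j
      have := congrFun he j
      exact ⟨congrArg Prod.fst this, congrArg Prod.snd this⟩
    obtain ⟨a1, a2⟩ := h q hq
    obtain ⟨b1, b2⟩ := h q' hq'
    rw [UU_succ] at a1 a2 b1 b2
    have e1 : q.1 0 = q'.1 0 := by
      have : ∑ j : Fin n, q.1 j.succ * (t : 𝓞 K) ^ ((j : ℕ) + 1) =
          ∑ j : Fin n, q'.1 j.succ * (t : 𝓞 K) ^ ((j : ℕ) + 1) :=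
        Finset.sum_congr rfl (fun j _ => by rw [(h1 j).1])
      rw [this] at a1
      exact add_right_cancel (a1.trans b1.symm)
    have e2 : q.2 0 = q'.2 0 := by
      have : ∑ j : Fin n, q.2 j.succ * (t : 𝓞 K) ^ ((j : ℕ) + 1) =
          ∑ j : Fin n, q'.2 j.succ * (t : 𝓞 K) ^ ((j : ℕ) + 1) :=
        Finset.sum_congr rfl (fun j _ => by rw [(h1 j).2])
      rw [this] at a2
      exact add_right_cancel (a2.trans b2.symm)
    refine Prod.ext ?_ ?_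
    · funext i
      refine Fin.cases e1 (fun j => (h1 j).1) i
    · funext i
      refine Fin.cases e2 (fun j => (h1 j).2) i

theorem mnr_zero {n : ℕ} (t : ℕ) (x z : Fin (n + 1) → 𝓞 K) (h0 : UU t x ≠ 0)
    (h : ∀ j : Fin n, UU t x * z j.succ - UU t z * x j.succ = 0) (i j : Fin (n + 1)) :
    mnr x z i j = 0 := by
  have h1 : ∀ j : Fin (n + 1), UU t x * z j - UU t z * x j = 0 := by
    have hsum : ∑ j : Fin (n + 1), (UU t x * z j - UU t z * x j) * (t : 𝓞 K) ^ (j : ℕ) = 0 := by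
      have : ∑ j : Fin (n + 1), (UU t x * z j - UU t z * x j) * (t : 𝓞 K) ^ (j : ℕ) =
          UU t x * UU t z - UU t z * UU t x := by
        conv_rhs => rw [show UU t z = ∑ i, z i * (t : 𝓞 K) ^ (i : ℕ) from rfl]
        rw [Finset.mul_sum]
        rw [show (∑ i, z i * (t : 𝓞 K) ^ (i : ℕ)) = UU t z from rfl]
        conv_rhs => rw [show UU t z * UU t x = ∑ i, UU t z * (x i * (t : 𝓞 K) ^ (i : ℕ)) from by
          rw [← Finset.mul_sum]; rfl]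
        rw [← Finset.sum_sub_distrib]
        refine Finset.sum_congr rfl (fun i _ => ?_)
        ring
      rw [this]
      ring
    rw [Fin.sum_univ_succ] at hsum
    have hz : ∑ j : Fin n, (UU t x * z j.succ - UU t z * x j.succ) *
        (t : 𝓞 K) ^ ((j.succ : Fin (n + 1)) : ℕ) = 0 :=
      Finset.sum_eq_zero (fun j _ => by rw [h j, zero_mul])
    rw [hz, add_zero] at hsum
    have h00 : UU t x * z 0 - UU t z * x 0 = 0 := by simpa using hsum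
    intro j
    exact Fin.cases h00 h j
  have h2 : UU t x * mnr x z i j = 0 := by
    have hi := h1 i
    have hj := h1 j
    unfold mnr
    have e1 : UU t x * z j = UU t z * x j := sub_eq_zero.mp hj
    have e2 : UU t x * z i = UU t z * x i := sub_eq_zero.mp hi
    calc UU t x * (x i * z j - x j * z i) = x i * (UU t x * z j) - x j * (UU t x * z i) := by ring
      _ = 0 := by rw [e1, e2]; ring
  exact (mul_eq_zero.mp h2).resolve_left h0

/-- the hypotheses on the pairs -/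
def HS {n : ℕ} (B : ℝ) (𝔤 : Ideal (𝓞 K)) (D : InfinitePlace K → ℝ)
    (q : (Fin (n + 1) → 𝓞 K) × (Fin (n + 1) → 𝓞 K)) : Prop :=
  Bd B q.1 ∧ Bg B q.1 ∧ (∀ i, q.2 i ∈ 𝔤) ∧
    (∀ i j (w : InfinitePlace K), w ((mnr q.1 q.2 i j : 𝓞 K) : K) ≤ D w) ∧
    ∃ i j, mnr q.1 q.2 i j ≠ 0

theorem w_sub (w : InfinitePlace K) (a b : K) : w (a - b) ≤ w a + w b := by
  rw [← w.norm_embedding_eq, ← w.norm_embedding_eq, ← w.norm_embedding_eq, map_sub]
  exact norm_sub_le _ _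

theorem UU_mem {n : ℕ} (t : ℕ) (z : Fin (n + 1) → 𝓞 K) (𝔤 : Ideal (𝓞 K)) (h : ∀ i, z i ∈ 𝔤) :
    UU t z ∈ 𝔤 := by
  unfold UU
  exact Ideal.sum_mem _ (fun i _ => Ideal.mul_mem_right _ _ (h i))

theorem norm_pos {𝔤 : Ideal (𝓞 K)} (h𝔤 : 𝔤 ≠ ⊥) : 0 < (Ideal.absNorm 𝔤 : ℝ) := by
  have : Ideal.absNorm 𝔤 ≠ 0 := by
    rw [Ne, Ideal.absNorm_eq_zero_iff]
    exact h𝔤
  exact_mod_cast Nat.pos_of_ne_zero this

open Classical in
theorem cnt_x {n : ℕ} (t T : ℕ) (ht : t ≤ T) (C2 E B : ℝ) (hC2 : 1 ≤ C2)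
    (hE : E = ((n : ℝ) + 1) * ((T : ℝ) + 1) ^ n) (hE1 : 1 ≤ E) (hB : 1 ≤ B)
    (hUP : ∀ (S : Finset (𝓞 K)) (X : ℝ), 1 ≤ X →
      (∀ a ∈ S, ∀ b ∈ S, ∀ w : InfinitePlace K, w ((a : K) - b) ≤ X) →
      (S.card : ℝ) ≤ C2 * X ^ dg K)
    (S : Finset ((Fin (n + 1) → 𝓞 K) × (Fin (n + 1) → 𝓞 K))) (hS : ∀ q ∈ S, Bd B q.1) :
    ((S.image (fun q => UU t q.1)).card : ℝ) ≤ C2 * (2 * E * B) ^ dg K := by
  refine hUP _ _ (by nlinarith) ?_
  intro a ha b hb w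
  obtain ⟨q, hq, rfl⟩ := Finset.mem_image.mp ha
  obtain ⟨q', hq', rfl⟩ := Finset.mem_image.mp hb
  have h1 := UU_bd t T ht q.1 w B (fun i => hS q hq i w)
  have h2 := UU_bd t T ht q'.1 w B (fun i => hS q' hq' i w)
  rw [← hE] at h1 h2
  calc _ ≤ _ := w_sub w _ _
    _ ≤ E * B + E * B := add_le_add h1 h2
    _ = 2 * E * B := by ring

open Classical in
theorem cnt_z {n : ℕ} (t : ℕ) (C3 C' B : ℝ) (hC3 : 1 ≤ C3) (hC' : 1 ≤ C') (hB : 1 ≤ B)
    (𝔤 : Ideal (𝓞 K)) (h𝔤 : 𝔤 ≠ ⊥)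
    (hLA : ∀ (T : Finset K) (D : InfinitePlace K → ℝ) (ν : ℝ), 0 < ν →
      (∀ w, 0 < D w) → (∀ t ∈ T, ∀ t' ∈ T, t ≠ t' →
      (∀ w : InfinitePlace K, w (t - t') ≤ D w) ∧ ν ≤ nm (t - t')) →
      (T.card : ℝ) ≤ C3 * (1 + pm D / ν))
    (hN1 : ∀ (𝔤 : Ideal (𝓞 K)) (a : 𝓞 K), a ∈ 𝔤 → a ≠ 0 → (Ideal.absNorm 𝔤 : ℝ) ≤ nm (a : K))
    (hN4 : ∀ X : ℝ, pm (K := K) (fun _ => X) = X ^ dg K)
    (S : Finset ((Fin (n + 1) → 𝓞 K) × (Fin (n + 1) → 𝓞 K))) (hS : ∀ q ∈ S, ∀ i, q.2 i ∈ 𝔤)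
    (hz1 : ∀ q ∈ S, ∀ w : InfinitePlace K, w (UU t q.2 : K) ^ dg K ≤
      C' * B ^ dg K * Ideal.absNorm 𝔤) :
    ((S.image (fun q => UU t q.2)).card : ℝ) ≤ C3 * (1 + 2 ^ dg K * C') * B ^ dg K := by
  have hd0 : dg K ≠ 0 := (Module.finrank_pos (R := ℚ) (M := K)).ne'
  have hN0 := norm_pos h𝔤
  have hB0 : 0 < B := by linarith
  obtain ⟨ρ, hρ0, hρd⟩ : ∃ ρ : ℝ, 0 < ρ ∧ ρ ^ dg K = C' * Ideal.absNorm 𝔤 :=
    ⟨(C' * Ideal.absNorm 𝔤) ^ (((dg K : ℕ) : ℝ)⁻¹), Real.rpow_pos_of_pos (by positivity) _,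
      Real.rpow_inv_natCast_pow (by positivity) hd0⟩
  have hinj : Function.Injective (fun a : 𝓞 K => (a : K)) := fun a b h => RingOfIntegers.ext h
  have h0 := hLA ((S.image (fun q => UU t q.2)).image (fun a : 𝓞 K => (a : K)))
    (fun _ => 2 * ρ * B) (Ideal.absNorm 𝔤) hN0 (fun _ => by positivity) ?_
  · rw [Finset.card_image_of_injective _ hinj, hN4] at h0
    refine h0.trans ?_
    have h1 : (2 * ρ * B) ^ dg K / (Ideal.absNorm 𝔤 : ℝ) = 2 ^ dg K * C' * B ^ dg K := by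
      rw [mul_pow, mul_pow, hρd]
      field_simp
    have h2 : 1 ≤ B ^ dg K := one_le_pow₀ hB
    have h3 : C3 * (1 + 2 ^ dg K * C') * B ^ dg K = C3 * (B ^ dg K + 2 ^ dg K * C' * B ^ dg K) := by
      ring
    rw [h1, h3]
    exact mul_le_mul_of_nonneg_left (by linarith) (by linarith)
  · intro a ha b hb hab
    obtain ⟨a', ha', rfl⟩ := Finset.mem_image.mp ha
    obtain ⟨b', hb', rfl⟩ := Finset.mem_image.mp hb
    obtain ⟨q, hq, rfl⟩ := Finset.mem_image.mp ha'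
    obtain ⟨q', hq', rfl⟩ := Finset.mem_image.mp hb'
    have hw : ∀ q ∈ S, ∀ w : InfinitePlace K, w (UU t q.2 : K) ≤ ρ * B := by
      intro q hq w
      have h1 := hz1 q hq w
      have h2 : C' * B ^ dg K * (Ideal.absNorm 𝔤 : ℝ) = (ρ * B) ^ dg K := by
        rw [mul_pow, hρd]
        ring
      rw [h2] at h1
      exact (pow_le_pow_iff_left₀ (apply_nonneg _ _) (by positivity) hd0).mp h1
    refine ⟨fun w => ?_, ?_⟩
    · calc _ ≤ _ := w_sub w _ _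
        _ ≤ ρ * B + ρ * B := add_le_add (hw q hq w) (hw q' hq' w)
        _ = 2 * ρ * B := by ring
    · have h4 := hN1 𝔤 (UU t q.2 - UU t q'.2)
        (Ideal.sub_mem _ (UU_mem t _ 𝔤 (hS q hq)) (UU_mem t _ 𝔤 (hS q' hq')))
        (fun h => hab (by
          have := sub_eq_zero.mp h
          simp only [this]))
      simpa using h4

open Classical in
theorem cnt_f {n : ℕ} (t T : ℕ) (ht : t ≤ T) (C4 E B c : ℝ) (hC4 : 1 ≤ C4) (hc : 0 < c)
    (hE : E = ((n : ℝ) + 1) * ((T : ℝ) + 1) ^ n) (hE1 : 1 ≤ E) (hB : 1 ≤ B)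
    (𝔤 : Ideal (𝓞 K)) (h𝔤 : 𝔤 ≠ ⊥) (D : InfinitePlace K → ℝ) (hD : ∀ w, 0 < D w)
    (hPA : ∀ (x₀ z₀ : 𝓞 K) (𝔤 : Ideal (𝓞 K)) (D : InfinitePlace K → ℝ) (B κ : ℝ)
      (S : Finset (𝓞 K × 𝓞 K)), 𝔤 ≠ ⊥ → x₀ ≠ 0 → z₀ ∈ 𝔤 → 1 ≤ κ → 0 < B →
      (∀ w : InfinitePlace K, B ≤ κ * w (x₀ : K)) → (∀ w, 0 < D w) →
      (∀ q ∈ S, (∀ w : InfinitePlace K, w (q.1 : K) ≤ B) ∧ q.2 ∈ 𝔤 ∧
        ∀ w : InfinitePlace K, w ((x₀ * q.2 - z₀ * q.1 : 𝓞 K) : K) ≤ D w) →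
      (∃ ξ ζ : 𝓞 K, ζ ∈ 𝔤 ∧ x₀ * ζ - z₀ * ξ ≠ 0 ∧
        ∀ w : InfinitePlace K, w ((x₀ * ζ - z₀ * ξ : 𝓞 K) : K) ≤ D w) →
      (S.card : ℝ) * Ideal.absNorm 𝔤 ≤ C4 * κ ^ dg K * pm D)
    (hN4 : ∀ X : ℝ, pm (K := K) (fun _ => X) = X ^ dg K)
    (hN5 : ∀ D E : InfinitePlace K → ℝ, pm (fun w => D w * E w) = pm D * pm E)
    (hpD : 0 < pm D)
    (F : Finset ((Fin (n + 1) → 𝓞 K) × (Fin (n + 1) → 𝓞 K))) (hS : ∀ q ∈ F, HS B 𝔤 D q)
    (hc1 : ∀ q ∈ F, ∀ (w : InfinitePlace K) i, c * w (q.1 i : K) ≤ w (UU t q.1 : K))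
    (q0 : (Fin (n + 1) → 𝓞 K) × (Fin (n + 1) → 𝓞 K)) (hq0 : q0 ∈ F)
    (hFm : ∀ q ∈ F, UU t q.1 = UU t q0.1 ∧ UU t q.2 = UU t q0.2) :
    (F.card : ℝ) ≤ (C4 * (max 1 (2 / c)) ^ dg K * E ^ dg K * (pm D / Ideal.absNorm 𝔤)) ^ n := by
  have hN0 := norm_pos h𝔤
  have hB0 : 0 < B := by linarith
  have hE0 : 0 < E := by linarith
  have h1 := fib_card t (UU t q0.1) (UU t q0.2) F hFm
  have h1' : (F.card : ℝ) ≤
      ∏ j : Fin n, ((F.image (fun q => (q.1 j.succ, q.2 j.succ))).card : ℝ) := by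
    exact_mod_cast h1
  refine h1'.trans ?_
  have hκB : ∀ w : InfinitePlace K, B ≤ max 1 (2 / c) * w (UU t q0.1 : K) := by
    intro w
    obtain ⟨i, hi⟩ := (hS q0 hq0).2.1 w
    have h2 := hc1 q0 hq0 w i
    have h3 : B ≤ 2 / c * w (UU t q0.1 : K) := by
      rw [div_mul_eq_mul_div, le_div_iff₀ hc]
      nlinarith
    exact h3.trans (mul_le_mul_of_nonneg_right (le_max_right _ _) (apply_nonneg _ _))
  have hU0 : UU t q0.1 ≠ 0 := by
    intro h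
    obtain ⟨w⟩ := (inferInstance : Nonempty (InfinitePlace K))
    have := hκB w
    rw [h] at this
    simp at this
    linarith
  have hmb : ∀ q ∈ F, ∀ (j : Fin (n + 1)) (w : InfinitePlace K),
      w ((UU t q0.1 * q.2 j - UU t q0.2 * q.1 j : 𝓞 K) : K) ≤ E * D w := by
    intro q hq j w
    obtain ⟨e1, e2⟩ := hFm q hq
    rw [← e1, ← e2, UU_mnr, hE]
    exact UU_bd t T ht _ w (D w) (fun i => (hS q hq).2.2.2.1 i j w)
  have hex : ∃ ξ ζ : 𝓞 K, ζ ∈ 𝔤 ∧ UU t q0.1 * ζ - UU t q0.2 * ξ ≠ 0 ∧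
      ∀ w : InfinitePlace K, w ((UU t q0.1 * ζ - UU t q0.2 * ξ : 𝓞 K) : K) ≤ E * D w := by
    obtain ⟨i, j, hij⟩ := (hS q0 hq0).2.2.2.2
    have : ∃ l : Fin n, UU t q0.1 * q0.2 l.succ - UU t q0.2 * q0.1 l.succ ≠ 0 := by
      by_contra hcon
      push Not at hcon
      exact hij (mnr_zero t q0.1 q0.2 hU0 hcon i j)
    obtain ⟨l, hl⟩ := this
    exact ⟨q0.1 l.succ, q0.2 l.succ, (hS q0 hq0).2.2.1 _, hl, hmb q0 hq0 l.succ⟩
  have hpart : ∀ j : Fin n, ((F.image (fun q => (q.1 j.succ, q.2 j.succ))).card : ℝ) ≤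
      C4 * (max 1 (2 / c)) ^ dg K * E ^ dg K * (pm D / Ideal.absNorm 𝔤) := by
    intro j
    have h5 := hPA (UU t q0.1) (UU t q0.2) 𝔤 (fun w => E * D w) B (max 1 (2 / c))
      (F.image (fun q => (q.1 j.succ, q.2 j.succ))) h𝔤 hU0 (UU_mem t _ 𝔤 (hS q0 hq0).2.2.1)
      (le_max_left _ _) hB0 hκB (fun w => mul_pos hE0 (hD w)) (fun a ha => ?_) hex
    · rw [hN5, hN4] at h5
      rw [← le_div_iff₀ hN0] at h5
      refine h5.trans (le_of_eq ?_)
      ring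
    · obtain ⟨q, hq, rfl⟩ := Finset.mem_image.mp ha
      exact ⟨fun w => (hS q hq).1 _ w, (hS q hq).2.2.1 _, fun w => hmb q hq _ w⟩
  refine (Finset.prod_le_prod (fun j _ => by positivity) (fun j _ => hpart j)).trans
    (le_of_eq ?_)
  rw [Finset.prod_const, Finset.card_univ, Fintype.card_fin]

theorem E_one (n T : ℕ) : (1 : ℝ) ≤ ((n : ℝ) + 1) * ((T : ℝ) + 1) ^ n := by
  have h0 : (0 : ℝ) ≤ n := Nat.cast_nonneg n
  have h1 : (0 : ℝ) ≤ T := Nat.cast_nonneg T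
  exact one_le_mul_of_one_le_of_one_le (by linarith) (one_le_pow₀ (by linarith))

open Classical in
/-- the count after the reduction -/
theorem red_count (hPA1 : T_PA1 K) (hLAT : T_LAT K) (hUPP : T_UPP K) (hNRM : T_NRM K) (n T : ℕ)
    (c C' : ℝ) (hc : 0 < c) (hC' : 1 ≤ C') :
    ∃ C : ℝ, 1 ≤ C ∧ ∀ t ≤ T, ∀ (B : ℝ) (𝔤 : Ideal (𝓞 K)) (D : InfinitePlace K → ℝ)
    (S : Finset ((Fin (n + 1) → 𝓞 K) × (Fin (n + 1) → 𝓞 K))), 1 ≤ B → 𝔤 ≠ ⊥ → (∀ w, 0 < D w) →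
    (∀ q ∈ S, HS B 𝔤 D q) →
    (∀ q ∈ S, ∀ (w : InfinitePlace K) i, c * w (q.1 i : K) ≤ w (UU t q.1 : K)) →
    (∀ q ∈ S, ∀ w : InfinitePlace K, w (UU t q.2 : K) ^ dg K ≤
      C' * B ^ dg K * Ideal.absNorm 𝔤) →
    (S.card : ℝ) ≤ C * B ^ (2 * dg K) * (pm D / Ideal.absNorm 𝔤) ^ n := by
  obtain ⟨C4, hC4, hPA⟩ := hPA1
  obtain ⟨C3, hC3, hLA⟩ := hLAT
  obtain ⟨C2, hC2, hUP⟩ := hUPP
  obtain ⟨hN1, _, _, hN4, hN5, hN6, hN7⟩ := hNRM
  obtain ⟨E, hE⟩ : ∃ E : ℝ, E = ((n : ℝ) + 1) * ((T : ℝ) + 1) ^ n := ⟨_, rfl⟩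
  have hE1 : 1 ≤ E := hE ▸ E_one n T
  have hE0 : 0 < E := by linarith
  refine ⟨C2 * (2 * E) ^ dg K * (C3 * (1 + 2 ^ dg K * C')) *
    (C4 * (max 1 (2 / c)) ^ dg K * E ^ dg K) ^ n, ?_, ?_⟩
  · have a1 : 1 ≤ C2 * (2 * E) ^ dg K :=
      one_le_mul_of_one_le_of_one_le hC2 (one_le_pow₀ (by linarith))
    have a2 : 1 ≤ C3 * (1 + 2 ^ dg K * C') := by
      refine one_le_mul_of_one_le_of_one_le hC3 ?_
      have : (0 : ℝ) ≤ 2 ^ dg K * C' := by positivity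
      linarith
    have a3 : 1 ≤ (C4 * (max 1 (2 / c)) ^ dg K * E ^ dg K) ^ n := one_le_pow₀
      (one_le_mul_of_one_le_of_one_le (one_le_mul_of_one_le_of_one_le hC4
        (one_le_pow₀ (le_max_left _ _))) (one_le_pow₀ hE1))
    exact one_le_mul_of_one_le_of_one_le (one_le_mul_of_one_le_of_one_le a1 a2) a3
  intro t ht B 𝔤 D S hB h𝔤 hD hS hc1 hz1
  have hN0 := norm_pos h𝔤
  have hpD : 0 < pm D := hN7 D hD
  have hcx := cnt_x t T ht C2 E B hC2 hE hE1 hB hUP S (fun q hq => (hS q hq).1)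
  have hcz := cnt_z t C3 C' B hC3 hC' hB 𝔤 h𝔤 hLA hN1 hN4 S (fun q hq => (hS q hq).2.2.1) hz1
  have hP : 0 ≤ (C4 * (max 1 (2 / c)) ^ dg K * E ^ dg K * (pm D / Ideal.absNorm 𝔤)) ^ n :=
    pow_nonneg (mul_nonneg (mul_nonneg (mul_nonneg (by linarith)
      (pow_nonneg (zero_le_one.trans (le_max_left _ _)) _)) (pow_nonneg hE0.le _))
      (div_nonneg hpD.le hN0.le)) _
  have hB0 : 0 < B := by linarith
  have hfin := card_two S (fun q => UU t q.1) (fun q => UU t q.2) _ _ _ hcx hcz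
    (mul_nonneg (by linarith) (pow_nonneg (by positivity) _)) hP (fun q0 hq0 => by
      refine cnt_f t T ht C4 E B c hC4 hc hE hE1 hB 𝔤 h𝔤 D hD hPA hN4 hN5 hpD _
        (fun q hq => hS q (Finset.mem_filter.mp hq).1)
        (fun q hq => hc1 q (Finset.mem_filter.mp hq).1) q0
        (Finset.mem_filter.mpr ⟨hq0, rfl, rfl⟩) (fun q hq => (Finset.mem_filter.mp hq).2))
  refine hfin.trans (le_of_eq ?_)
  rw [mul_pow (C4 * (max 1 (2 / c)) ^ dg K * E ^ dg K), mul_pow (2 * E), two_mul (dg K), pow_add]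
  ring

end aux

theorem pf_PCN (K : Type) [Field K] [NumberField K] (hPA1 : T_PA1 K) (hLIN : T_LIN)
    (hCOI : T_COI K) (hLAT : T_LAT K) (hUPP : T_UPP K) (hNRM : T_NRM K) : T_PCN K := by
  classical
  intro s
  rcases s with _ | n
  · refine ⟨1, le_rfl, fun B 𝔤 D S hB h𝔤 hD hS _ => ?_⟩
    have hempty : S = ∅ := by
      refine Finset.eq_empty_of_forall_notMem (fun q hq => ?_)
      obtain ⟨i, _⟩ := (hS q hq).2.2.2.2
      exact i.elim0
    rw [hempty]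
    have : 0 < pm D := hNRM.2.2.2.2.2.2 D hD
    simp only [Finset.card_empty, Nat.cast_zero]
    positivity
  obtain ⟨T, c, hc, hT⟩ := hLIN (n + 1) (Fintype.card (InfinitePlace K))
  obtain ⟨C1, hC1, hCO⟩ := hCOI
  set d := dg K with hd
  have hd0 : d ≠ 0 := (Module.finrank_pos (R := ℚ) (M := K)).ne'
  set E : ℝ := ((n : ℝ) + 1) * ((T : ℝ) + 1) ^ n with hE
  have hE1 : 1 ≤ E := by
    have h1 : (1 : ℝ) ≤ (n : ℝ) + 1 := by
      have : (0 : ℝ) ≤ n := by positivity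
      linarith
    have h2 : (1 : ℝ) ≤ ((T : ℝ) + 1) ^ n := one_le_pow₀ (by
      have : (0 : ℝ) ≤ T := by positivity
      linarith)
    exact one_le_mul_of_one_le_of_one_le h1 h2
  have hC' : 1 ≤ E ^ d * C1 := one_le_mul_of_one_le_of_one_le (one_le_pow₀ hE1) hC1
  obtain ⟨C, hC, hR⟩ := red_count hPA1 hLAT hUPP hNRM n T c (E ^ d * C1) hc hC'
  refine ⟨(T + 1) * C, one_le_mul_of_one_le_of_one_le (by
    have : (0 : ℝ) ≤ T := by positivity
    linarith) hC, fun B 𝔤 D S hB h𝔤 hD hS hinj => ?_⟩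
  have hB0 : 0 < B := by linarith
  have hpD : 0 < pm D := hNRM.2.2.2.2.2.2 D hD
  have hN0 : 0 < (Ideal.absNorm 𝔤 : ℝ) := by
    have : Ideal.absNorm 𝔤 ≠ 0 := by
      rw [Ne, Ideal.absNorm_eq_zero_iff]
      exact h𝔤
    exact_mod_cast Nat.pos_of_ne_zero this
  set e := Fintype.equivFin (InfinitePlace K) with he
  have hsel : ∀ q : (Fin (n + 1) → 𝓞 K) × (Fin (n + 1) → 𝓞 K), ∃ t ≤ T,
      ∀ (w : InfinitePlace K) i, c * w (q.1 i : K) ≤ w (UU t q.1 : K) := by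
    intro q
    obtain ⟨t, ht, h1⟩ := hT (fun k r => (e.symm k).embedding (q.1 r : K))
    refine ⟨t, ht, fun w i => ?_⟩
    have h2 := h1 (e w) i
    simp only [Equiv.symm_apply_apply] at h2
    rw [w.norm_embedding_eq, ← w_UU] at h2
    exact h2
  choose tt htt hcc using hsel
  have key : ∀ t ≤ T, (((S.filter (fun q => tt q = t)).card : ℝ)) ≤
      C * B ^ (2 * d) * (pm D / Ideal.absNorm 𝔤) ^ n := by
    intro t ht
    set S' := S.filter (fun q => tt q = t) with hS'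
    -- the reduction
    have hτ : ∀ q : (Fin (n + 1) → 𝓞 K) × (Fin (n + 1) → 𝓞 K), ∃ a : 𝓞 K, a ∈ 𝔤 ∧
        ∀ w : InfinitePlace K, w ((UU t q.2 : K) / (UU t q.1 : K) - (a : K)) ^ d ≤
          C1 * Ideal.absNorm 𝔤 := by
      intro q
      obtain ⟨a, ha, h⟩ := hCO 𝔤 ((UU t q.2 : K) / (UU t q.1 : K)) h𝔤
      exact ⟨a, ha, h⟩
    choose τ hτ𝔤 hτw using hτ
    set g : (Fin (n + 1) → 𝓞 K) × (Fin (n + 1) → 𝓞 K) →
        (Fin (n + 1) → 𝓞 K) × (Fin (n + 1) → 𝓞 K) :=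
      fun q => (q.1, fun i => q.2 i - τ q * q.1 i) with hg
    have hmn : ∀ q i j, mnr (g q).1 (g q).2 i j = mnr q.1 q.2 i j := by
      intro q i j
      simp only [hg, mnr]
      ring
    have hginj : Set.InjOn g S' := by
      intro q hq q' hq' h
      have hqS : q ∈ S := (Finset.mem_filter.mp (Finset.mem_coe.mp hq)).1
      have hqS' : q' ∈ S := (Finset.mem_filter.mp (Finset.mem_coe.mp hq')).1
      have h1 : (g q).1 = (g q').1 := congrArg Prod.fst h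
      change q.1 = q'.1 at h1
      have h2' : (g q).2 = (g q').2 := congrArg Prod.snd h
      have h2 : ∀ i, q.2 i - τ q * q.1 i = q'.2 i - τ q' * q'.1 i := fun i => congrFun h2' i
      refine hinj q hqS q' hqS' h1 ⟨τ q - τ q', Ideal.sub_mem _ (hτ𝔤 q) (hτ𝔤 q'), fun i => ?_⟩
      have h3 := h2 i
      rw [← h1] at h3
      linear_combination h3
    have hcard : (S'.image g).card = S'.card := Finset.card_image_of_injOn hginj
    rw [← hcard]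
    refine hR t ht B 𝔤 D (S'.image g) hB h𝔤 hD ?_ ?_ ?_
    · intro a ha
      obtain ⟨q, hq, rfl⟩ := Finset.mem_image.mp ha
      obtain ⟨hqS, hqt⟩ := Finset.mem_filter.mp hq
      obtain ⟨h1, h2, h3, h4, h5⟩ := hS q hqS
      refine ⟨h1, h2, fun i => ?_, fun i j w => ?_, ?_⟩
      · exact Ideal.sub_mem _ (h3 i) (Ideal.mul_mem_right _ _ (hτ𝔤 q))
      · rw [hmn]
        exact h4 i j w
      · obtain ⟨i, j, hij⟩ := h5
        exact ⟨i, j, by rw [hmn]; exact hij⟩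
    · intro a ha w i
      obtain ⟨q, hq, rfl⟩ := Finset.mem_image.mp ha
      obtain ⟨hqS, hqt⟩ := Finset.mem_filter.mp hq
      have := hcc q w i
      rw [hqt] at this
      exact this
    · intro a ha w
      obtain ⟨q, hq, rfl⟩ := Finset.mem_image.mp ha
      obtain ⟨hqS, hqt⟩ := Finset.mem_filter.mp hq
      have hU0 : (UU t q.1 : K) ≠ 0 := by
        intro h
        obtain ⟨i, hi⟩ := (hS q hqS).2.1 w
        have h1 := hcc q w i
        rw [hqt, h, map_zero] at h1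
        nlinarith
      have h1 : ((UU t (g q).2 : 𝓞 K) : K) =
          (UU t q.1 : K) * ((UU t q.2 : K) / (UU t q.1 : K) - (τ q : K)) := by
        have : UU t (g q).2 = UU t q.2 - τ q * UU t q.1 := UU_sub t q.1 q.2 (τ q)
        rw [this]
        push_cast
        field_simp
      rw [h1, map_mul, mul_pow]
      have h2 : w (UU t q.1 : K) ^ d ≤ (E * B) ^ d :=
        pow_le_pow_left₀ (apply_nonneg _ _) (UU_bd t T ht q.1 w B (fun i => (hS q hqS).1 i w)) _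
      calc _ ≤ (E * B) ^ d * (C1 * Ideal.absNorm 𝔤) :=
            mul_le_mul h2 (hτw q w) (by positivity) (by positivity)
        _ = E ^ d * C1 * B ^ d * Ideal.absNorm 𝔤 := by rw [mul_pow]; ring
  have hsum : (S.card : ℝ) = ∑ t ∈ Finset.range (T + 1), ((S.filter (fun q => tt q = t)).card : ℝ) := by
    have := Finset.card_eq_sum_card_fiberwise (f := tt) (s := S) (t := Finset.range (T + 1))
      (fun q _ => by
        simp only [Finset.coe_range, Set.mem_Iio]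
        exact Nat.lt_succ_of_le (htt q))
    exact_mod_cast this
  rw [hsum]
  refine (Finset.sum_le_sum (fun t ht => key t (Nat.lt_succ_iff.mp (Finset.mem_range.mp ht)))).trans
    (le_of_eq ?_)
  rw [Finset.sum_const, Finset.card_range, nsmul_eq_mul]
  push_cast
  ring_nf

end Pool.Agent.H51.RK
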