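import Pool.Agent.H32.RK.TargetsA
import Pool.Agent.H32.RK.TargetsB

set_option autoImplicit false

open Finset NumberField Pool.Agent.H32.RQ Pool.Agent.H32.RK

namespace Pool.Agent.H51.RK.SM

theorem geo (A : Finset ℤ) (K0 : ℤ) (h : ∀ j ∈ A, j ≤ K0) :
    ∑ j ∈ A, (2 : ℝ) ^ j ≤ 2 * (2 : ℝ) ^ K0 := by
  have h1 : ∀ j ∈ A, (2 : ℝ) ^ j = (2 : ℝ) ^ K0 * (1 / 2) ^ (K0 - j).toNat := by
    intro j hj
    have h2 : ((K0 - j).toNat : ℤ) = K0 - j := Int.toNat_of_nonneg (by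
      have := h j hj
      omega)
    have h3 : ((1 : ℝ) / 2) ^ (K0 - j).toNat = (2 : ℝ) ^ (-(K0 - j)) := by
      rw [one_div, inv_pow, ← zpow_natCast, h2, zpow_neg]
    rw [h3, ← zpow_add₀ (by norm_num)]
    congr 1
    ring
  rw [Finset.sum_congr rfl h1, ← Finset.mul_sum, mul_comm]
  refine mul_le_mul_of_nonneg_right ?_ (by positivity)
  have hinj : Set.InjOn (fun j : ℤ => (K0 - j).toNat) A := by
    intro a ha b hb hab
    have h2 := h a ha
    have h3 := h b hb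
    simp only at hab
    omega
  have h4 : ∑ j ∈ A, ((1 : ℝ) / 2) ^ (K0 - j).toNat =
      ∑ l ∈ A.image (fun j : ℤ => (K0 - j).toNat), ((1 : ℝ) / 2) ^ l := by
    rw [Finset.sum_image hinj]
  rw [h4]
  exact (summable_geometric_two.sum_le_tsum _ (fun _ _ => by positivity)).trans
    (le_of_eq tsum_geometric_two)

theorem geo_pow (A : Finset ℤ) (K0 : ℤ) (h : ∀ j ∈ A, j ≤ K0) (e : ℕ) (he : 1 ≤ e) :
    ∑ j ∈ A, ((2 : ℝ) ^ j) ^ e ≤ 2 * ((2 : ℝ) ^ K0) ^ e := by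
  obtain ⟨e', rfl⟩ : ∃ e', e = e' + 1 := ⟨e - 1, by omega⟩
  have h1 : ∀ j ∈ A, ((2 : ℝ) ^ j) ^ (e' + 1) ≤ ((2 : ℝ) ^ K0) ^ e' * (2 : ℝ) ^ j := by
    intro j hj
    rw [pow_succ]
    refine mul_le_mul_of_nonneg_right ?_ (by positivity)
    exact pow_le_pow_left₀ (by positivity) (zpow_le_zpow_right₀ (by norm_num) (h j hj)) _
  refine (Finset.sum_le_sum h1).trans ?_
  rw [← Finset.mul_sum]
  refine (mul_le_mul_of_nonneg_left (geo A K0 h) (by positivity)).trans (le_of_eq ?_)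
  rw [pow_succ]
  ring

open Classical in
theorem sumk {I : Type} [Fintype I] (A : Finset (I → ℤ)) (K0 : ℤ) (h : ∀ k ∈ A, ∀ v, k v ≤ K0)
    (e : I → ℕ) (he : ∀ v, 1 ≤ e v) (M : ℝ) (hM : (2 : ℝ) ^ K0 ≤ 2 * M) :
    ∑ k ∈ A, ∏ v, ((2 : ℝ) ^ (k v)) ^ e v ≤ 2 ^ Fintype.card I * (2 * M) ^ (∑ v, e v) := by
  have h1 : A ⊆ Fintype.piFinset (fun v => A.image (fun k => k v)) := by
    intro k hk
    rw [Fintype.mem_piFinset]
    exact fun v => Finset.mem_image_of_mem (fun k => k v) hk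
  refine (Finset.sum_le_sum_of_subset_of_nonneg h1 (fun k _ _ =>
    Finset.prod_nonneg (fun v _ => by positivity))).trans ?_
  rw [← Finset.prod_univ_sum (fun v => A.image (fun k => k v)) (fun v j => ((2 : ℝ) ^ j) ^ e v)]
  have h2 : ∀ v ∈ (univ : Finset I), ∑ j ∈ A.image (fun k => k v), ((2 : ℝ) ^ j) ^ e v ≤
      2 * (2 * M) ^ e v := by
    intro v _
    refine (geo_pow _ K0 (fun j hj => ?_) (e v) (he v)).trans ?_
    · obtain ⟨k, hk, rfl⟩ := Finset.mem_image.mp hj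
      exact h k hk v
    · exact mul_le_mul_of_nonneg_left (pow_le_pow_left₀ (by positivity) hM _) (by norm_num)
  refine (Finset.prod_le_prod (fun v _ => Finset.sum_nonneg (fun j _ => by positivity)) h2).trans
    (le_of_eq ?_)
  rw [Finset.prod_mul_distrib, Finset.prod_const, Finset.card_univ, Finset.prod_pow_eq_pow_sum]

open Classical in
theorem prod_drop {I : Type} [Fintype I] (a : I → ℝ) (ha : ∀ v, 0 < a v) (e : I → ℕ) (v0 : I)
    (he : 1 ≤ e v0) :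
    (∏ v, a v ^ e v) * (1 / a v0) = ∏ v, a v ^ (e v - if v = v0 then 1 else 0) := by
  have h1 : ∏ v, a v ^ (if v = v0 then 1 else 0) = a v0 := by
    rw [Finset.prod_eq_single v0]
    · simp
    · intro b _ hb
      simp [hb]
    · intro h
      exact absurd (Finset.mem_univ _) h
  have h2 : (∏ v, a v ^ (e v - if v = v0 then 1 else 0)) * a v0 = ∏ v, a v ^ e v := by
    conv_lhs => rw [← h1]
    rw [← Finset.prod_mul_distrib]
    refine Finset.prod_congr rfl (fun v _ => ?_)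
    rw [← pow_add]
    congr 1
    split_ifs with h
    · rw [h]
      omega
    · omega
  rw [← h2]
  have := (ha v0).ne'
  field_simp

variable {K : Type} [Field K] [NumberField K]

/-- the class of the size -/
noncomputable def kk (D : InfinitePlace K → ℝ) : InfinitePlace K → ℤ := fun v => Int.clog 2 (D v)

theorem kk_le (D : InfinitePlace K → ℝ) (v : InfinitePlace K) : D v ≤ (2 : ℝ) ^ kk D v := by
  have := Int.self_le_zpow_clog (R := ℝ) (b := 2) (by norm_num) (D v)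
  exact_mod_cast this

theorem kk_lt (D : InfinitePlace K → ℝ) (v : InfinitePlace K) (h : 0 < D v) :
    (2 : ℝ) ^ kk D v ≤ 2 * D v := by
  have h1 := Int.zpow_pred_clog_lt_self (R := ℝ) (b := 2) (by norm_num) h
  have h2 : ((2 : ℕ) : ℝ) ^ (Int.clog 2 (D v) - 1) = (2 : ℝ) ^ kk D v / 2 := by
    rw [zpow_sub_one₀ (by norm_num)]
    unfold kk
    push_cast
    ring
  rw [h2] at h1
  linarith

open Classical in
theorem cls (hNRM : T_NRM K) (s : ℕ) (hs : 6 ≤ s) {α : Type} (Q P : Finset α) (hQP : Q ⊆ P)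
    (G : α → Ideal (𝓞 K)) (D : α → InfinitePlace K → ℝ) (C₀ : ℝ) (hC₀ : 0 ≤ C₀)
    (hP : ∀ i ∈ P, G i ≠ ⊥ ∧ ∀ v, 0 < D i v)
    (hcard : ∀ (𝔤 : Ideal (𝓞 K)) (E : InfinitePlace K → ℝ), 𝔤 ≠ ⊥ → (∀ v, 0 < E v) →
      ((P.filter fun i => G i = 𝔤 ∧ ∀ v, D i v ≤ E v).card : ℝ) ≤
        C₀ * (pm E / Ideal.absNorm 𝔤) ^ (s - 1))
    (f : α → ℝ) (hf0 : ∀ i ∈ Q, 0 ≤ f i) (F : (InfinitePlace K → ℤ) → ℝ) (hF : ∀ k, 0 ≤ F k)
    (hf : ∀ i ∈ Q, f i ≤ F (kk (D i))) (SG SK : ℝ)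
    (hSG : ∑ 𝔤 ∈ Q.image G, 1 / (Ideal.absNorm 𝔤 : ℝ) ^ (s - 3) ≤ SG)
    (hSK : ∑ k ∈ Q.image (fun i => kk (D i)), pm (fun v => (2 : ℝ) ^ k v) ^ (s - 3) * F k ≤ SK) :
    ∑ i ∈ Q, (Ideal.absNorm (G i) : ℝ) ^ 2 / pm (D i) ^ 2 * f i ≤
      C₀ * 4 ^ dg K * (SG * SK) := by
  obtain ⟨_, _, _, hN4, hN5, hN6, hN7⟩ := hNRM
  obtain ⟨m, rfl⟩ : ∃ m, s = m + 3 := ⟨s - 3, by omega⟩
  have e1 : m + 3 - 3 = m := by omega
  have e2 : m + 3 - 1 = m + 2 := by omega
  rw [e1] at hSG hSK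
  rw [e2] at hcard
  have hmaps : ∀ i ∈ Q, (G i, kk (D i)) ∈ Q.image G ×ˢ Q.image (fun i => kk (D i)) := by
    intro i hi
    exact Finset.mem_product.mpr ⟨Finset.mem_image_of_mem G hi,
      Finset.mem_image_of_mem (fun i => kk (D i)) hi⟩
  rw [← Finset.sum_fiberwise_of_maps_to hmaps, Finset.sum_product]
  have hclass : ∀ 𝔤 ∈ Q.image G, ∀ k ∈ Q.image (fun i => kk (D i)),
      ∑ i ∈ Q.filter (fun i => (G i, kk (D i)) = (𝔤, k)),
        (Ideal.absNorm (G i) : ℝ) ^ 2 / pm (D i) ^ 2 * f i ≤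
      C₀ * 4 ^ dg K * (1 / (Ideal.absNorm 𝔤 : ℝ) ^ m *
        (pm (fun v => (2 : ℝ) ^ k v) ^ m * F k)) := by
    intro 𝔤 h𝔤 k _
    obtain ⟨i₀, hi₀, rfl⟩ := Finset.mem_image.mp h𝔤
    have hbot : G i₀ ≠ ⊥ := (hP i₀ (hQP hi₀)).1
    have hN0 : 0 < (Ideal.absNorm (G i₀) : ℝ) := by
      have : Ideal.absNorm (G i₀) ≠ 0 := by
        rw [Ne, Ideal.absNorm_eq_zero_iff]
        exact hbot
      exact_mod_cast Nat.pos_of_ne_zero this
    have hk0 : 0 < pm (K := K) (fun v => (2 : ℝ) ^ k v) := hN7 _ (fun v => by positivity)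
    have h1 : ∀ i ∈ Q.filter (fun i => (G i, kk (D i)) = (G i₀, k)),
        (Ideal.absNorm (G i) : ℝ) ^ 2 / pm (D i) ^ 2 * f i ≤
        (Ideal.absNorm (G i₀) : ℝ) ^ 2 * (4 ^ dg K / pm (fun v => (2 : ℝ) ^ k v) ^ 2) * F k := by
      intro i hi
      obtain ⟨hi1, hi2⟩ := Finset.mem_filter.mp hi
      have hi3 : G i = G i₀ := congrArg Prod.fst hi2
      have hi4 : kk (D i) = k := congrArg Prod.snd hi2
      have hDi := (hP i (hQP hi1)).2
      have hpD : 0 < pm (D i) := hN7 _ hDi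
      have h2 : pm (K := K) (fun v => (2 : ℝ) ^ k v) ≤ 2 ^ dg K * pm (D i) := by
        rw [← hN4, ← hN5]
        refine hN6 _ _ (fun v => by positivity) (fun v => ?_)
        rw [← hi4]
        exact kk_lt (D i) v (hDi v)
      have h3 : 1 / pm (D i) ^ 2 ≤ 4 ^ dg K / pm (fun v => (2 : ℝ) ^ k v) ^ 2 := by
        rw [div_le_div_iff₀ (by positivity) (by positivity), one_mul]
        calc pm (K := K) (fun v => (2 : ℝ) ^ k v) ^ 2 ≤ (2 ^ dg K * pm (D i)) ^ 2 :=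
              pow_le_pow_left₀ hk0.le h2 2
          _ = 4 ^ dg K * pm (D i) ^ 2 := by
              rw [mul_pow, ← pow_mul, mul_comm (dg K) 2, pow_mul]
              norm_num
      rw [hi3]
      have h4 := hf i hi1
      rw [hi4] at h4
      rw [div_eq_mul_one_div]
      exact mul_le_mul (mul_le_mul_of_nonneg_left h3 (by positivity)) h4 (hf0 i hi1)
        (by positivity)
    refine (Finset.sum_le_card_nsmul _ _ _ h1).trans ?_
    rw [nsmul_eq_mul]
    have h2 : ((Q.filter (fun i => (G i, kk (D i)) = (G i₀, k))).card : ℝ) ≤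
        C₀ * (pm (fun v => (2 : ℝ) ^ k v) / Ideal.absNorm (G i₀)) ^ (m + 2) := by
      refine le_trans ?_ (hcard (G i₀) (fun v => (2 : ℝ) ^ k v) hbot (fun v => by positivity))
      have h4 : Q.filter (fun i => (G i, kk (D i)) = (G i₀, k)) ⊆
          P.filter fun i => G i = G i₀ ∧ ∀ v, D i v ≤ (2 : ℝ) ^ k v := by
        intro i hi
        obtain ⟨hi1, hi2⟩ := Finset.mem_filter.mp hi
        have hi3 : G i = G i₀ := congrArg Prod.fst hi2
        have hi4 : kk (D i) = k := congrArg Prod.snd hi2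
        refine Finset.mem_filter.mpr ⟨hQP hi1, hi3, fun v => ?_⟩
        rw [← hi4]
        exact kk_le (D i) v
      exact_mod_cast Finset.card_le_card h4
    have hB0 : 0 ≤ (Ideal.absNorm (G i₀) : ℝ) ^ 2 *
        (4 ^ dg K / pm (fun v => (2 : ℝ) ^ k v) ^ 2) * F k :=
      mul_nonneg (by positivity) (hF k)
    refine (mul_le_mul_of_nonneg_right h2 hB0).trans (le_of_eq ?_)
    rw [div_pow, pow_add (pm (K := K) fun v => (2 : ℝ) ^ k v) m 2,
      pow_add (Ideal.absNorm (G i₀) : ℝ) m 2]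
    field_simp
  refine (Finset.sum_le_sum fun 𝔤 h𝔤 => Finset.sum_le_sum fun k hk => hclass 𝔤 h𝔤 k hk).trans ?_
  have e3 : ∑ 𝔤 ∈ Q.image G, ∑ k ∈ Q.image (fun i => kk (D i)),
      C₀ * 4 ^ dg K * (1 / (Ideal.absNorm 𝔤 : ℝ) ^ m *
        (pm (fun v => (2 : ℝ) ^ k v) ^ m * F k)) =
      C₀ * 4 ^ dg K * ((∑ 𝔤 ∈ Q.image G, 1 / (Ideal.absNorm 𝔤 : ℝ) ^ m) *
        ∑ k ∈ Q.image (fun i => kk (D i)), pm (fun v => (2 : ℝ) ^ k v) ^ m * F k) := by
    rw [Finset.sum_mul_sum, Finset.mul_sum]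
    refine Finset.sum_congr rfl (fun 𝔤 _ => ?_)
    rw [Finset.mul_sum]
  rw [e3]
  refine mul_le_mul_of_nonneg_left ?_ (by positivity)
  have h5 : 0 ≤ ∑ k ∈ Q.image (fun i => kk (D i)), pm (fun v => (2 : ℝ) ^ k v) ^ m * F k :=
    Finset.sum_nonneg (fun k _ => mul_nonneg (pow_nonneg (hN7 _ (fun v => by positivity)).le _)
      (hF k))
  have h6 : 0 ≤ ∑ 𝔤 ∈ Q.image G, 1 / (Ideal.absNorm 𝔤 : ℝ) ^ m :=
    Finset.sum_nonneg (fun _ _ => by positivity)
  exact mul_le_mul hSG hSK h5 (h6.trans hSG)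

theorem pm_pow (k : InfinitePlace K → ℤ) (m : ℕ) :
    pm (fun v => (2 : ℝ) ^ k v) ^ m = ∏ v, ((2 : ℝ) ^ (k v)) ^ (v.mult * m) := by
  unfold pm
  rw [← Finset.prod_pow]
  refine Finset.prod_congr rfl (fun v _ => ?_)
  rw [pow_mul]

end Pool.Agent.H51.RK.SM

namespace Pool.Agent.H51.RK

open SM

theorem pf_SMM (K : Type) [Field K] [NumberField K] (hIDS : T_IDS K) (hNRM : T_NRM K) :
    T_SMM K := by
  classical
  intro s hs
  obtain ⟨CI, hCI, _, hI2, hI3⟩ := hIDS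
  have hsum : ∑ w : InfinitePlace K, w.mult = dg K := InfinitePlace.sum_mult_eq
  set r := Fintype.card (InfinitePlace K) with hr
  have hr1 : (1 : ℝ) ≤ r := by
    have : 0 < r := Fintype.card_pos
    exact_mod_cast this
  have hd1 : 1 ≤ dg K := Module.finrank_pos
  refine ⟨4 ^ dg K * CI * 2 ^ r * 2 ^ (dg K * (s - 3) - 1) * (2 * r), ?_, ?_⟩
  · have a1 : (1 : ℝ) ≤ 4 ^ dg K := one_le_pow₀ (by norm_num)
    have a2 : (1 : ℝ) ≤ 2 ^ r := one_le_pow₀ (by norm_num)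
    have a3 : (1 : ℝ) ≤ 2 ^ (dg K * (s - 3) - 1) := one_le_pow₀ (by norm_num)
    exact one_le_mul_of_one_le_of_one_le (one_le_mul_of_one_le_of_one_le
      (one_le_mul_of_one_le_of_one_le (one_le_mul_of_one_le_of_one_le a1 hCI) a2) a3) (by linarith)
  intro α P G D Z M κ C₀ w₀ hM hC₀ hκ hw₀ hP hZ hcard
  have hM0 : 0 < M := by linarith
  set K0 : ℤ := Int.clog 2 M with hK0
  have hK0M : (2 : ℝ) ^ K0 ≤ 2 * M := by
    have h1 := Int.zpow_pred_clog_lt_self (R := ℝ) (b := 2) (by norm_num) hM0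
    have h2 : ((2 : ℕ) : ℝ) ^ (Int.clog 2 M - 1) = (2 : ℝ) ^ K0 / 2 := by
      rw [zpow_sub_one₀ (by norm_num), hK0]
      push_cast
      ring
    rw [h2] at h1
    linarith
  have hkK : ∀ i ∈ P, ∀ v, kk (D i) v ≤ K0 := by
    intro i hi v
    exact Int.clog_mono_right ((hP i hi).2.1 v).1 ((hP i hi).2.1 v).2
  have hmult : ∀ v : InfinitePlace K, 1 ≤ v.mult := fun v => InfinitePlace.mult_pos
  have hm3 : 3 ≤ s - 3 := by omega
  have hds : ∑ v : InfinitePlace K, v.mult * (s - 3) = dg K * (s - 3) := by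
    rw [← Finset.sum_mul, hsum]
  have hdpos : 1 ≤ dg K * (s - 3) := by
    have : 1 * 1 ≤ dg K * (s - 3) := Nat.mul_le_mul hd1 (by omega)
    omega
  have hP' : ∀ i ∈ P, G i ≠ ⊥ ∧ ∀ v, 0 < D i v := fun i hi =>
    ⟨(hP i hi).1, fun v => ((hP i hi).2.1 v).1⟩
  -- the part `Z`
  have h1 := cls hNRM s hs (P.filter Z) P (Finset.filter_subset _ _) G D C₀ hC₀ hP' hcard
    (fun i => κ * ∑ v, 1 / D i v)
    (fun i hi => mul_nonneg hκ (Finset.sum_nonneg (fun v _ =>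
      (one_div_pos.mpr ((hP' i (Finset.mem_filter.mp hi).1).2 v)).le)))
    (fun k => κ * ∑ v, 2 * (1 / (2 : ℝ) ^ k v))
    (fun k => mul_nonneg hκ (Finset.sum_nonneg (fun v _ => by positivity)))
    (fun i hi => by
      refine mul_le_mul_of_nonneg_left (Finset.sum_le_sum (fun v _ => ?_)) hκ
      have hDv := (hP' i (Finset.mem_filter.mp hi).1).2 v
      have h2 := kk_lt (D i) v hDv
      rw [mul_one_div, div_le_div_iff₀ hDv (by positivity)]
      linarith)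
    CI (2 * κ * (r * (2 ^ r * (2 * M) ^ (dg K * (s - 3) - 1))))
    (hI3 (s - 3) _ (by omega) (fun 𝔤 h𝔤 => by
      obtain ⟨i, hi, rfl⟩ := Finset.mem_image.mp h𝔤
      exact (hP i (Finset.mem_filter.mp hi).1).1))
    (by
      have e1 : ∀ k : InfinitePlace K → ℤ, pm (fun v => (2 : ℝ) ^ k v) ^ (s - 3) *
          (κ * ∑ v, 2 * (1 / (2 : ℝ) ^ k v)) =
          2 * κ * ∑ v0, ∏ v, ((2 : ℝ) ^ (k v)) ^ (v.mult * (s - 3) - if v = v0 then 1 else 0) := by
        intro k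
        rw [pm_pow, Finset.mul_sum, Finset.mul_sum, Finset.mul_sum]
        refine Finset.sum_congr rfl (fun v0 _ => ?_)
        rw [← prod_drop (fun v => (2 : ℝ) ^ (k v)) (fun v => by positivity)
          (fun v => v.mult * (s - 3)) v0 (Nat.mul_pos (hmult v0) (by omega))]
        ring
      rw [Finset.sum_congr rfl (fun k _ => e1 k), ← Finset.mul_sum, Finset.sum_comm]
      refine mul_le_mul_of_nonneg_left ?_ (by positivity)
      have e2 : ∀ v0 ∈ (univ : Finset (InfinitePlace K)),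
          ∑ k ∈ (P.filter Z).image (fun i => kk (D i)),
            ∏ v, ((2 : ℝ) ^ (k v)) ^ (v.mult * (s - 3) - if v = v0 then 1 else 0) ≤
          2 ^ r * (2 * M) ^ (dg K * (s - 3) - 1) := by
        intro v0 _
        have h3 := sumk ((P.filter Z).image (fun i => kk (D i))) K0 (fun k hk v => by
            obtain ⟨i, hi, rfl⟩ := Finset.mem_image.mp hk
            exact hkK i (Finset.mem_filter.mp hi).1 v)
          (fun v => v.mult * (s - 3) - if v = v0 then 1 else 0) (fun v => by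
            have h4 : 1 * 3 ≤ v.mult * (s - 3) := Nat.mul_le_mul (hmult v) hm3
            split_ifs <;> omega) M hK0M
        have h4 : ∑ v : InfinitePlace K, (v.mult * (s - 3) - if v = v0 then 1 else 0) =
            dg K * (s - 3) - 1 := by
          have h5 : ∑ v : InfinitePlace K, (v.mult * (s - 3) - if v = v0 then 1 else 0) +
              ∑ v : InfinitePlace K, (if v = v0 then 1 else 0) = dg K * (s - 3) := by
            rw [← hds, ← Finset.sum_add_distrib]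
            refine Finset.sum_congr rfl (fun v _ => ?_)
            have h4 : 1 * 3 ≤ v.mult * (s - 3) := Nat.mul_le_mul (hmult v) hm3
            split_ifs <;> omega
          rw [Finset.sum_ite_eq' univ v0, if_pos (Finset.mem_univ _)] at h5
          omega
        rw [h4] at h3
        exact h3
      refine (Finset.sum_le_sum e2).trans (le_of_eq ?_)
      rw [Finset.sum_const, Finset.card_univ, nsmul_eq_mul])
  -- the other part
  have h2 := cls hNRM s hs (P.filter (fun i => ¬ Z i)) P (Finset.filter_subset _ _) G D C₀ hC₀ hP'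
    hcard (fun _ => 1) (fun _ _ => zero_le_one) (fun _ => 1) (fun _ => zero_le_one)
    (fun _ _ => le_rfl) (CI / w₀) (2 ^ r * (2 * M) ^ (dg K * (s - 3)))
    ((hI2 (s - 3) w₀ _ (by omega) hw₀ (fun 𝔤 h𝔤 => by
      obtain ⟨i, hi, rfl⟩ := Finset.mem_image.mp h𝔤
      exact hZ i (Finset.mem_filter.mp hi).1 (Finset.mem_filter.mp hi).2)).trans (by
        have h3 : (1 : ℝ) ≤ w₀ := by exact_mod_cast hw₀
        refine div_le_div_of_nonneg_left (by linarith) (by linarith) ?_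
        calc (w₀ : ℝ) = (w₀ : ℝ) ^ 1 := (pow_one _).symm
          _ ≤ (w₀ : ℝ) ^ (s - 3 - 1) := pow_le_pow_right₀ h3 (by omega)))
    (by
      have e1 : ∀ k : InfinitePlace K → ℤ, pm (fun v => (2 : ℝ) ^ k v) ^ (s - 3) * (1 : ℝ) =
          ∏ v, ((2 : ℝ) ^ (k v)) ^ (v.mult * (s - 3)) := by
        intro k
        rw [mul_one, pm_pow]
      rw [Finset.sum_congr rfl (fun k _ => e1 k)]
      have h3 := sumk ((P.filter (fun i => ¬ Z i)).image (fun i => kk (D i))) K0 (fun k hk v => by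
          obtain ⟨i, hi, rfl⟩ := Finset.mem_image.mp hk
          exact hkK i (Finset.mem_filter.mp hi).1 v)
        (fun v => v.mult * (s - 3)) (fun v => by
          have h4 : 1 * 3 ≤ v.mult * (s - 3) := Nat.mul_le_mul (hmult v) hm3
          omega) M hK0M
      rw [hds] at h3
      exact h3)
  have hsplit : ∑ i ∈ P, (Ideal.absNorm (G i) : ℝ) ^ 2 / pm (D i) ^ 2 *
      (if Z i then κ * ∑ v, 1 / D i v else 1) =
      ∑ i ∈ P.filter Z, (Ideal.absNorm (G i) : ℝ) ^ 2 / pm (D i) ^ 2 * (κ * ∑ v, 1 / D i v) +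
      ∑ i ∈ P.filter (fun i => ¬ Z i), (Ideal.absNorm (G i) : ℝ) ^ 2 / pm (D i) ^ 2 * 1 := by
    rw [← Finset.sum_filter_add_sum_filter_not P Z]
    congr 1
    · refine Finset.sum_congr rfl (fun i hi => ?_)
      rw [if_pos (Finset.mem_filter.mp hi).2]
    · refine Finset.sum_congr rfl (fun i hi => ?_)
      rw [if_neg (Finset.mem_filter.mp hi).2]
  rw [hsplit]
  refine (add_le_add h1 h2).trans ?_
  have e5 : (2 * M) ^ (dg K * (s - 3)) = (2 * M) ^ (dg K * (s - 3) - 1) * (2 * M) := by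
    rw [← pow_succ]
    congr 1
    omega
  rw [e5, mul_pow]
  have hw1 : (0 : ℝ) < w₀ := by
    have : 0 < w₀ := hw₀
    exact_mod_cast this
  have hX : (0 : ℝ) ≤ C₀ * 4 ^ dg K * CI * 2 ^ r * (2 ^ (dg K * (s - 3) - 1) *
      M ^ (dg K * (s - 3) - 1)) := by positivity
  have e6 : C₀ * 4 ^ dg K * (CI * (2 * κ * (r * (2 ^ r * (2 ^ (dg K * (s - 3) - 1) *
      M ^ (dg K * (s - 3) - 1)))))) + C₀ * 4 ^ dg K * (CI / w₀ * (2 ^ r *
      (2 ^ (dg K * (s - 3) - 1) * M ^ (dg K * (s - 3) - 1) * (2 * M)))) =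
      C₀ * 4 ^ dg K * CI * 2 ^ r * (2 ^ (dg K * (s - 3) - 1) *
      M ^ (dg K * (s - 3) - 1)) * (2 * r * κ + 2 * (M / w₀)) := by
    field_simp
  have e7 : 4 ^ dg K * CI * 2 ^ r * 2 ^ (dg K * (s - 3) - 1) * (2 * r) * C₀ *
      M ^ (dg K * (s - 3) - 1) * (M / w₀ + κ) = C₀ * 4 ^ dg K * CI * 2 ^ r *
      (2 ^ (dg K * (s - 3) - 1) * M ^ (dg K * (s - 3) - 1)) * (2 * r * κ + 2 * r * (M / w₀)) := by
    ring
  rw [e6, e7]
  refine mul_le_mul_of_nonneg_left ?_ hX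
  have h7 : 0 ≤ M / w₀ := by positivity
  nlinarith

end Pool.Agent.H51.RK
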