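import Pool.Agent.H92.RK.Targets

/-!
Cauchy-Schwarz with a weight.
-/

namespace Pool.Agent.H51.RK

open Pool.Agent.H92.RK MeasureTheory Set
open scoped ENNReal

theorem csn_point (x : ℝ) (hx : 0 ≤ x) (r : ℝ≥0∞) (h0 : r = 0 → x = 0) (hr : r < ∞) :
    ENNReal.ofReal x = (ENNReal.ofReal (x ^ 2) / r) ^ (1 / 2 : ℝ) * r ^ (1 / 2 : ℝ) := by
  by_cases h : r = 0
  · rw [h0 h, h]
    simp
  · rw [← ENNReal.mul_rpow_of_nonneg _ _ (by norm_num : (0 : ℝ) ≤ 1 / 2),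
      ENNReal.div_mul_cancel h hr.ne, ENNReal.ofReal_pow hx, ← ENNReal.rpow_natCast,
      ← ENNReal.rpow_mul]
    norm_num

theorem pf_CSN : T_CSN := by
  intro g ρ hg hg0 hρ hint hz
  have hpi := Real.pi_pos
  set μ := volume.restrict (Ioo (-Real.pi) Real.pi) with hμ
  have hA : ∫⁻ θ, ENNReal.ofReal (g θ) ∂μ = ENNReal.ofReal (∫ θ in (-Real.pi)..Real.pi, g θ) := by
    rw [intervalIntegral.integral_of_le (by linarith), MeasureTheory.integral_Ioc_eq_integral_Ioo,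
      ofReal_integral_eq_lintegral_ofReal]
    · exact (hg.integrableOn_Icc (a := -Real.pi) (b := Real.pi)).mono_set Ioo_subset_Icc_self
    · exact Filter.Eventually.of_forall hg0
  have hfin : ∀ᵐ θ ∂μ, ρ θ < ∞ :=
    ae_lt_top hρ (ne_top_of_le_ne_top ENNReal.ofReal_ne_top hint)
  have hae : ∀ᵐ θ ∂μ, ENNReal.ofReal (g θ) =
      ((fun θ => (ENNReal.ofReal (g θ ^ 2) / ρ θ) ^ (1 / 2 : ℝ)) *
        (fun θ => ρ θ ^ (1 / 2 : ℝ))) θ := by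
    filter_upwards [hfin] with θ h
    exact csn_point (g θ) (hg0 θ) (ρ θ) (hz θ) h
  have hm1 : Measurable fun θ => (ENNReal.ofReal (g θ ^ 2) / ρ θ) :=
    (((hg.pow 2).measurable).ennreal_ofReal).div hρ
  have hH := ENNReal.lintegral_mul_le_Lp_mul_Lq μ Real.HolderConjugate.two_two
    (f := fun θ => (ENNReal.ofReal (g θ ^ 2) / ρ θ) ^ (1 / 2 : ℝ))
    (g := fun θ => ρ θ ^ (1 / 2 : ℝ))
    (hm1.pow_const _).aemeasurable (hρ.pow_const _).aemeasurable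
  rw [← lintegral_congr_ae hae, hA] at hH
  have e : ∀ x : ℝ≥0∞, (x ^ (1 / 2 : ℝ)) ^ (2 : ℝ) = x := fun x => by
    rw [← ENNReal.rpow_mul]
    norm_num
  simp only [e] at hH
  set I := ∫⁻ θ, ENNReal.ofReal (g θ ^ 2) / ρ θ ∂μ with hI
  have h2 : ENNReal.ofReal (∫ θ in (-Real.pi)..Real.pi, g θ) ^ (2 : ℝ) ≤
      I * ENNReal.ofReal (2 * Real.pi) := by
    calc ENNReal.ofReal (∫ θ in (-Real.pi)..Real.pi, g θ) ^ (2 : ℝ)
        ≤ (I ^ (1 / 2 : ℝ) * (∫⁻ θ, ρ θ ∂μ) ^ (1 / 2 : ℝ)) ^ (2 : ℝ) :=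
          ENNReal.rpow_le_rpow hH (by norm_num)
      _ = I * ∫⁻ θ, ρ θ ∂μ := by
          rw [ENNReal.mul_rpow_of_nonneg _ _ (by norm_num : (0 : ℝ) ≤ 2), e, e]
      _ ≤ I * ENNReal.ofReal (2 * Real.pi) := by gcongr
  have hnn : 0 ≤ ∫ θ in (-Real.pi)..Real.pi, g θ :=
    intervalIntegral.integral_nonneg (by linarith) fun θ _ => hg0 θ
  rw [ENNReal.ofReal_div_of_pos (by positivity), ENNReal.ofReal_pow hnn]
  refine ENNReal.div_le_of_le_mul ?_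
  rw [← ENNReal.rpow_natCast]
  exact_mod_cast h2

end Pool.Agent.H51.RK
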